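import Pool.Agent.Q5.VL.Rk

/-! Relations over an extension field. -/

set_option autoImplicit false
set_option linter.unusedSectionVars false

namespace Pool.Agent.Q5.VL

open NumberField Pool.Agent.W353.NF Pool.Agent.W401.Cheb Pool.Agent.Q5.BR

section
variable {K F : Type} [Field K] [NumberField K] [Field F] [NumberField F] [Algebra K F]

/-- the embeddings of an extension of `F` above a fixed embedding of `F` -/
theorem card_above (σ : GK K) (i : F →ₐ[K] AlgebraicClosure K)
    (hi : (σ : AlgebraicClosure K →ₐ[K] AlgebraicClosure K).comp i = i) :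
    ∃ τ : GK F, ∀ (Y : Type) [Field Y] [Algebra F Y] [Algebra K Y] [IsScalarTower K F Y],
      Nat.card {j : Y →ₐ[K] AlgebraicClosure K //
        (σ : AlgebraicClosure K →ₐ[K] AlgebraicClosure K).comp j = j ∧
          ∀ z : F, j (algebraMap F Y z) = i z} = fixn F Y τ := by
  let aF : Algebra F (AlgebraicClosure K) := i.toRingHom.toAlgebra
  have hst : IsScalarTower K F (AlgebraicClosure K) :=
    IsScalarTower.of_algebraMap_eq fun x => (i.commutes x).symm
  have halg : Algebra.IsAlgebraic F (AlgebraicClosure K) :=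
    Algebra.IsAlgebraic.tower_top (K := K) F
  have hcl : IsAlgClosure F (AlgebraicClosure K) := ⟨inferInstance, halg⟩
  let e : AlgebraicClosure F ≃ₐ[F] AlgebraicClosure K :=
    IsAlgClosure.equiv F (AlgebraicClosure F) (AlgebraicClosure K)
  let σ' : AlgebraicClosure K ≃ₐ[F] AlgebraicClosure K :=
    AlgEquiv.ofRingEquiv (f := σ.toRingEquiv) fun z => DFunLike.congr_fun hi z
  refine ⟨(e.trans σ').trans e.symm, fun Y _ _ _ _ => ?_⟩
  unfold fixn
  refine Nat.card_congr ⟨fun j => ⟨?_, ?_⟩, fun j => ⟨?_, ?_, ?_⟩, fun j => ?_, fun j => ?_⟩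
  · exact (e.symm : AlgebraicClosure K →ₐ[F] AlgebraicClosure F).comp
      { j.1 with commutes' := fun z => j.2.2 z }
  · apply AlgHom.ext
    intro y
    change e.symm (σ (e (e.symm (j.1 y)))) = e.symm (j.1 y)
    rw [AlgEquiv.apply_symm_apply]
    congr 1
    exact DFunLike.congr_fun j.2.1 y
  · exact ((e : AlgebraicClosure F →ₐ[F] AlgebraicClosure K).comp j.1).restrictScalars K
  · apply AlgHom.ext
    intro y
    change σ (e (j.1 y)) = e (j.1 y)
    have h1 := DFunLike.congr_fun j.2 y
    change e.symm (σ (e (j.1 y))) = j.1 y at h1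
    have h2 := congrArg e h1
    rw [AlgEquiv.apply_symm_apply] at h2
    exact h2
  · intro z
    change e (j.1 (algebraMap F Y z)) = i z
    rw [j.1.commutes, e.commutes]
    rfl
  · apply Subtype.ext
    apply AlgHom.ext
    intro y
    change e (e.symm (j.1 y)) = j.1 y
    rw [AlgEquiv.apply_symm_apply]
  · apply Subtype.ext
    apply AlgHom.ext
    intro y
    change e.symm (e (j.1 y)) = j.1 y
    rw [AlgEquiv.symm_apply_apply]

/-- **The relation over the smaller field.** -/
theorem rel_up {ι : Type} [Fintype ι] {Y : ι → Ext F} [∀ j, Algebra K (Y j).F]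
    [∀ j, IsScalarTower K F (Y j).F] {n : ι → ℤ} {m : ℤ}
    (h : ∀ τ : GK F, ∑ j, n j * (fixn F (Y j).F τ : ℤ) = m) (σ : GK K) :
    ∑ j, n j * (fixn K (Y j).F σ : ℤ) = m * (fixn K F σ : ℤ) := by
  classical
  have hfe : Finite (F →ₐ[K] AlgebraicClosure K) := inferInstance
  let S : Type := {i : F →ₐ[K] AlgebraicClosure K //
    (σ : AlgebraicClosure K →ₐ[K] AlgebraicClosure K).comp i = i}
  have : Fintype S := Fintype.ofFinite S
  choose τ hτ using fun i : S => card_above σ i.1 i.2
  have h1 : ∀ j, (fixn K (Y j).F σ : ℤ) = ∑ i : S, (fixn F (Y j).F (τ i) : ℤ) := by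
    intro j
    have hfd : FiniteDimensional K (Y j).F := inferInstance
    have hfY : Finite ((Y j).F →ₐ[K] AlgebraicClosure K) := inferInstance
    have e : {k : (Y j).F →ₐ[K] AlgebraicClosure K //
        (σ : AlgebraicClosure K →ₐ[K] AlgebraicClosure K).comp k = k} ≃
        (i : S) × {k : (Y j).F →ₐ[K] AlgebraicClosure K //
        (σ : AlgebraicClosure K →ₐ[K] AlgebraicClosure K).comp k = k ∧
          ∀ z : F, k (algebraMap F (Y j).F z) = i.1 z} := by
      refine ⟨fun k => ⟨⟨k.1.comp (IsScalarTower.toAlgHom K F (Y j).F), ?_⟩, ⟨k.1, k.2, fun z => rfl⟩⟩,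
        fun p => ⟨p.2.1, p.2.2.1⟩, fun k => rfl, ?_⟩
      · rw [← AlgHom.comp_assoc, k.2]
      · rintro ⟨⟨i, hi⟩, ⟨k, hk1, hk2⟩⟩
        have h2 : k.comp (IsScalarTower.toAlgHom K F (Y j).F) = i := AlgHom.ext fun z => hk2 z
        subst h2
        rfl
    have hdef : fixn K (Y j).F σ = Nat.card {k : (Y j).F →ₐ[K] AlgebraicClosure K //
        (σ : AlgebraicClosure K →ₐ[K] AlgebraicClosure K).comp k = k} := rfl
    rw [hdef, Nat.card_congr e, Nat.card_sigma]
    push_cast
    refine Finset.sum_congr rfl fun i _ => ?_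
    rw [hτ i (Y j).F]
  have h2 : (fixn K F σ : ℤ) = Fintype.card S := by
    rw [← Nat.card_eq_fintype_card]
    rfl
  rw [Finset.sum_congr rfl fun j _ => by rw [h1 j, Finset.mul_sum], Finset.sum_comm,
    Finset.sum_congr rfl fun i _ => h (τ i), Finset.sum_const, Finset.card_univ, h2, nsmul_eq_mul,
    mul_comm]

/-- **The dimensions over the fields in a relation over `F`.** -/
theorem rank_relation_up {V : Type} [AddCommGroup V] [Module ℚ V] (ρ : Representation ℚ (GK K) V)
    {ι : Type} [Fintype ι] {Y : ι → Ext F} [∀ j, Algebra K (Y j).F]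
    [∀ j, IsScalarTower K F (Y j).F] {n : ι → ℤ} {m : ℤ}
    (h : ∀ τ : GK F, ∑ j, n j * (fixn F (Y j).F τ : ℤ) = m)
    (hV : ∀ N : IntermediateField K (AlgebraicClosure K), FiniteDimensional K N →
      FiniteDimensional ℚ (fixV ρ N.val)) :
    ∑ j, n j * (rk ρ (Y j).F : ℤ) = m * (rk ρ F : ℤ) := by
  classical
  let Z : Option ι → Ext K := fun o => match o with
    | none => Ext.mk F
    | some j => Ext.mk (Y j).F
  let c : Option ι → ℤ := fun o => match o with
    | none => -m
    | some j => n j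
  have h1 := rank_relation ρ (X := Z) (n := c) (fun σ => by
    rw [Fintype.sum_option]
    change -m * (fixn K F σ : ℤ) + ∑ j, n j * (fixn K (Y j).F σ : ℤ) = 0
    rw [rel_up h σ]
    ring) hV
  rw [Fintype.sum_option] at h1
  change -m * (rk ρ F : ℤ) + ∑ j, n j * (rk ρ (Y j).F : ℤ) = 0 at h1
  linarith

end

end Pool.Agent.Q5.VL
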