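import Pool.Agent.Q5.VL.Sys
import Pool.Agent.Q5.BR.RadRel

/-! The Euler products of a projective variety over the fields in a relation. -/

set_option autoImplicit false
set_option linter.unusedSectionVars false

namespace Pool.Agent.Q5.VL

open NumberField IsDedekindDomain Filter Topology Polynomial Pool.Agent.W353.NF
  Pool.Agent.W401.Cheb Pool.Agent.Q5.BR
open Pool.Agent.W353.EF (IsFrobenius LFun cone)

section
variable {F : Type} [Field F] [NumberField F]

/-- the logarithm of the Euler factor -/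
noncomputable def el (B : HeightOneSpectrum (𝓞 F) → ℂ[X]) (w : HeightOneSpectrum (𝓞 F)) (s : ℂ) :
    ℂ := -Complex.log (ev B w s)

theorem ev_ne {B : HeightOneSpectrum (𝓞 F) → ℂ[X]} {w : HeightOneSpectrum (𝓞 F)} {s : ℂ} {u : ℝ}
    (hu : u ≤ 1 / 2) (h : ‖ev B w s - 1‖ ≤ u) : ev B w s ≠ 0 := by
  intro h0
  rw [h0, zero_sub, norm_neg, norm_one] at h
  linarith

theorem ev_slit {B : HeightOneSpectrum (𝓞 F) → ℂ[X]} {w : HeightOneSpectrum (𝓞 F)} {s : ℂ} {u : ℝ}
    (hu : u ≤ 1 / 2) (h : ‖ev B w s - 1‖ ≤ u) : ev B w s ∈ Complex.slitPlane := by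
  left
  have h1 := (Complex.abs_re_le_norm (ev B w s - 1)).trans h
  rw [Complex.sub_re, Complex.one_re] at h1
  have := (abs_le.1 h1).1
  linarith

theorem norm_el {B : HeightOneSpectrum (𝓞 F) → ℂ[X]} {w : HeightOneSpectrum (𝓞 F)} {s : ℂ} {u : ℝ}
    (hu : u ≤ 1 / 2) (h : ‖ev B w s - 1‖ ≤ u) : ‖el B w s‖ ≤ 3 / 2 * u := by
  unfold el
  rw [norm_neg]
  have h1 := Complex.norm_log_one_add_half_le_self (h.trans hu)
  rw [add_sub_cancel] at h1
  exact h1.trans (mul_le_mul_of_nonneg_left h (by norm_num))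

theorem summable_el {B : HeightOneSpectrum (𝓞 F) → ℂ[X]} {u : HeightOneSpectrum (𝓞 F) → ℝ}
    (hu : Summable u) (hu2 : ∀ w, u w ≤ 1 / 2) {s : ℂ} (h : ∀ w, ‖ev B w s - 1‖ ≤ u w) :
    Summable (fun w => el B w s) :=
  Summable.of_norm_bounded (hu.mul_left (3 / 2)) fun w => norm_el (hu2 w) (h w)

theorem LFun_exp {B : HeightOneSpectrum (𝓞 F) → ℂ[X]} {u : HeightOneSpectrum (𝓞 F) → ℝ}
    (hu : Summable u) (hu2 : ∀ w, u w ≤ 1 / 2) {s : ℂ} (h : ∀ w, ‖ev B w s - 1‖ ≤ u w) :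
    LFun B s = Complex.exp (∑' w, el B w s) := by
  rw [← (summable_el hu hu2 h).hasSum.cexp.tprod_eq]
  refine tprod_congr fun w => ?_
  change (ev B w s)⁻¹ = Complex.exp (el B w s)
  unfold el
  rw [Complex.exp_neg, Complex.exp_log (ev_ne (hu2 w) (h w))]

theorem differentiable_ev (B : HeightOneSpectrum (𝓞 F) → ℂ[X]) (w : HeightOneSpectrum (𝓞 F)) :
    Differentiable ℂ (ev B w) := by
  have h0 : ((Ideal.absNorm w.asIdeal : ℕ) : ℂ) ≠ 0 := by
    have := Pool.Agent.W540.BE.two_le_nm w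
    have h2 : (2 : ℕ) ≤ Ideal.absNorm w.asIdeal := this
    exact_mod_cast (by omega : Ideal.absNorm w.asIdeal ≠ 0)
  intro s
  unfold ev
  exact (B w).differentiable.differentiableAt.comp s
    ((differentiableAt_id.neg).const_cpow (Or.inl h0))

theorem LFun_diff {B : HeightOneSpectrum (𝓞 F) → ℂ[X]} {u : HeightOneSpectrum (𝓞 F) → ℝ} {c : ℝ}
    (hu : Summable u) (hu2 : ∀ w, u w ≤ 1 / 2)
    (h : ∀ s : ℂ, c < s.re → ∀ w, ‖ev B w s - 1‖ ≤ u w) :
    DifferentiableOn ℂ (LFun B) {s : ℂ | c < s.re} := by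
  have hopen : IsOpen {s : ℂ | c < s.re} := isOpen_lt continuous_const Complex.continuous_re
  have h1 : DifferentiableOn ℂ (fun s => ∑' w, el B w s) {s : ℂ | c < s.re} := by
    refine Complex.differentiableOn_tsum_of_summable_norm (hu.mul_left (3 / 2)) (fun w => ?_) hopen
      fun w s hs => norm_el (hu2 w) (h s hs w)
    intro s hs
    unfold el
    exact (((differentiable_ev B w s).clog (ev_slit (hu2 w) (h s hs w))).neg).differentiableWithinAt
  refine (h1.cexp).congr fun s hs => ?_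
  exact LFun_exp hu hu2 (h s hs)

end

section
variable {K₀ K : Type} [Field K₀] [Field K] [NumberField K] [Algebra K₀ K] {n : ℕ}
  {X : Set (MvPolynomial (Fin n) (𝓞 K₀))} {d i N : ℕ} {ι : Type} [Fintype ι]

/-- the finite part of the relation -/
noncomputable def RF {Y : ι → Ext K} (n : ι → ℤ) (m : ℤ)
    (B₀ : HeightOneSpectrum (𝓞 K) → ℂ[X])
    (B : ∀ j, HeightOneSpectrum (𝓞 (Y j).F) → ℂ[X])
    (S : Finset (HeightOneSpectrum (𝓞 K))) (s : ℂ) : ℂ :=
  ∏ v ∈ S, ((∏ w ∈ above K v, (ev B₀ w s)⁻¹) ^ m *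
    ∏ j, (∏ w ∈ above (Y j).F v, (ev (B j) w s)⁻¹) ^ (-n j))

open Classical in
/-- the local term for the extension of degree `f` of the residue field of `v` -/
noncomputable def lam (X : Set (MvPolynomial (Fin n) (𝓞 K₀))) (d i N : ℕ)
    (v : HeightOneSpectrum (𝓞 K)) (f : ℕ) (s : ℂ) : ℂ :=
  if h : ∃ α : Fin N → ℂ, IsFrobenius X d i v α then
    -Complex.log (∏ j, (1 - h.choose j ^ f *
      ((Ideal.absNorm v.asIdeal ^ f : ℕ) : ℂ) ^ (-s))) else 0

theorem el_eq (hi : i ≤ 2 * d) {F : Type} [Field F] [NumberField F] [Algebra K₀ F] [Algebra K F]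
    [IsScalarTower K₀ K F] {B : HeightOneSpectrum (𝓞 F) → ℂ[X]} {w : HeightOneSpectrum (𝓞 F)}
    (hw : ∃ α : Fin N → ℂ, IsFrobenius X d i w α ∧
      ∀ z : ℂ, (B w).eval z = ∏ j, (1 - α j * z))
    (hv : ∃ α : Fin N → ℂ, IsFrobenius X d i (w.under (𝓞 K)) α) (s : ℂ) :
    el B w s = lam X d i N (w.under (𝓞 K)) (rdeg K w) s := by
  obtain ⟨α, hα, hB⟩ := hw
  unfold el lam
  rw [dif_pos hv]
  congr 2
  unfold ev
  rw [hB, frob_unique hi hα (frob_up hv.choose_spec), absNorm_rdeg (K := K) w]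

/-- **The power of the L-function in a relation.** -/
theorem sys_pow {Y : ι → Ext K} [∀ j, Algebra K₀ (Y j).F] [∀ j, IsScalarTower K₀ K (Y j).F]
    {n : ι → ℤ} {m : ℤ} (h : ∀ σ : GK K, ∑ j, n j * (fixn K (Y j).F σ : ℤ) = m)
    (hi : i ≤ 2 * d) {B₀ : HeightOneSpectrum (𝓞 K) → ℂ[X]} (hB₀ : IsSys X d i N B₀)
    {B : ∀ j, HeightOneSpectrum (𝓞 (Y j).F) → ℂ[X]} (hB : ∀ j, IsSys X d i N (B j)) :
    ∃ (S : Finset (HeightOneSpectrum (𝓞 K))) (c : ℝ), ∀ s : ℂ, c < s.re →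
      (LFun B₀ s) ^ m = RF n m B₀ B S s * ∏ j, (LFun (B j) s) ^ (n j) := by
  classical
  obtain ⟨c₀, u₀, -, hu₀, hu₀2, hev₀⟩ := tame hB₀
  choose c u _ hu hu2 hev using fun j => tame (hB j)
  let Y' : Option ι → Ext K := fun o => o.elim (Ext.mk K) Y
  let n' : Option ι → ℤ := fun o => o.elim (-m) n
  have hrel : Rel Y' n' := by
    intro σ
    rw [Fintype.sum_option]
    change (-m) * (fixn K K σ : ℤ) + ∑ j, n j * (fixn K (Y j).F σ : ℤ) = 0
    rw [h σ, fixn_self]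
    push_cast
    ring
  obtain ⟨S₀, hS₀⟩ := euler_rel hrel
  have hb0 := hB₀.1
  rw [eventually_cofinite] at hb0
  have hbj := fun j => (hB j).1
  simp only [eventually_cofinite] at hbj
  have hbj' : ∀ j, ((fun w : HeightOneSpectrum (𝓞 (Y j).F) => w.under (𝓞 K)) ''
      {w | ¬ ∃ α : Fin N → ℂ, IsFrobenius X d i w α ∧
        ∀ z : ℂ, (B j w).eval z = ∏ k, (1 - α k * z)}).Finite := fun j => (hbj j).image _
  set S : Finset (HeightOneSpectrum (𝓞 K)) := S₀ ∪ hb0.toFinset ∪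
    Finset.univ.biUnion fun j => (hbj' j).toFinset with hS
  refine ⟨S, max c₀ (∑ j, |c j|), fun s hs => ?_⟩
  have hs0 : c₀ < s.re := (le_max_left _ _).trans_lt hs
  have hsj : ∀ j, c j < s.re := by
    intro j
    refine ((le_abs_self _).trans ?_).trans_lt ((le_max_right _ _).trans_lt hs)
    exact Finset.single_le_sum (f := fun j => |c j|) (fun _ _ => abs_nonneg _) (Finset.mem_univ j)
  let ℓ : ∀ o : Option ι, HeightOneSpectrum (𝓞 (Y' o).F) → ℂ := fun o => match o with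
    | none => fun w => el B₀ w s
    | some j => fun w => el (B j) w s
  have hv : ∀ v : HeightOneSpectrum (𝓞 K), v ∉ S → ∃ α : Fin N → ℂ, IsFrobenius X d i v α ∧
      ∀ z : ℂ, (B₀ v).eval z = ∏ k, (1 - α k * z) := by
    intro v hv
    by_contra hcon
    apply hv
    rw [hS]
    apply Finset.mem_union_left
    apply Finset.mem_union_right
    rw [Set.Finite.mem_toFinset]
    exact hcon
  have key0 : ∀ w : HeightOneSpectrum (𝓞 K), w.under (𝓞 K) ∉ S →
      el B₀ w s = lam X d i N (w.under (𝓞 K)) (rdeg K w) s := by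
    intro w hw
    have h2 : w.under (𝓞 K) = w := by
      apply HeightOneSpectrum.ext
      change w.asIdeal.comap (algebraMap (𝓞 K) (𝓞 K)) = w.asIdeal
      exact Ideal.comap_id _
    have h3 := hv _ hw
    refine el_eq (K := K) hi ?_ (h3.imp fun α hα => hα.1) s
    rwa [h2] at h3
  have keyj : ∀ (j : ι) (w : HeightOneSpectrum (𝓞 (Y j).F)), w.under (𝓞 K) ∉ S →
      el (B j) w s = lam X d i N (w.under (𝓞 K)) (rdeg K w) s := by
    intro j w hw
    refine el_eq (K := K) hi ?_ ((hv _ hw).imp fun α hα => hα.1) s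
    by_contra hcon
    apply hw
    rw [hS]
    apply Finset.mem_union_right
    rw [Finset.mem_biUnion]
    refine ⟨j, Finset.mem_univ j, ?_⟩
    rw [Set.Finite.mem_toFinset]
    exact ⟨w, hcon, rfl⟩
  have h1 := hS₀ S (by
      intro v hv
      rw [hS]
      exact Finset.mem_union_left _ (Finset.mem_union_left _ hv)) ℓ
    (fun v f => lam X d i N v f s) (by
      rintro (_ | j)
      · exact summable_el hu₀ hu₀2 (hev₀ s hs0)
      · exact summable_el (hu j) (hu2 j) (hev j s (hsj j))) (by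
      rintro (_ | j) w hw
      · exact key0 w hw
      · exact keyj j w hw)
  have h2 := congrArg Complex.exp h1
  rw [Complex.exp_sum, Complex.exp_sum, Fintype.prod_option] at h2
  have h3 : Complex.exp ((n' none : ℂ) * ∑' w, ℓ none w) = (LFun B₀ s) ^ (-m) := by
    change Complex.exp (((-m : ℤ) : ℂ) * ∑' w, el B₀ w s) = _
    rw [Complex.exp_int_mul, ← LFun_exp hu₀ hu₀2 (hev₀ s hs0)]
  have h4 : ∀ j, Complex.exp ((n' (some j) : ℂ) * ∑' w, ℓ (some j) w) = (LFun (B j) s) ^ (n j) := by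
    intro j
    change Complex.exp (((n j : ℤ) : ℂ) * ∑' w, el (B j) w s) = _
    rw [Complex.exp_int_mul, ← LFun_exp (hu j) (hu2 j) (hev j s (hsj j))]
  have hexp0 : ∀ w, Complex.exp (el B₀ w s) = (ev B₀ w s)⁻¹ := by
    intro w
    unfold el
    rw [Complex.exp_neg, Complex.exp_log (ev_ne (hu₀2 w) (hev₀ s hs0 w))]
  have hexpj : ∀ j w, Complex.exp (el (B j) w s) = (ev (B j) w s)⁻¹ := by
    intro j w
    unfold el
    rw [Complex.exp_neg, Complex.exp_log (ev_ne (hu2 j w) (hev j s (hsj j) w))]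
  have h5 : ∀ v : HeightOneSpectrum (𝓞 K),
      Complex.exp (∑ o, (n' o : ℂ) * ∑ w ∈ above (Y' o).F v, ℓ o w) =
      (∏ w ∈ above K v, (ev B₀ w s)⁻¹) ^ (-m) *
        ∏ j, (∏ w ∈ above (Y j).F v, (ev (B j) w s)⁻¹) ^ (n j) := by
    intro v
    rw [Complex.exp_sum, Fintype.prod_option]
    congr 1
    · change Complex.exp (((-m : ℤ) : ℂ) * ∑ w ∈ above K v, el B₀ w s) = _
      rw [Complex.exp_int_mul, Complex.exp_sum, Finset.prod_congr rfl fun w _ => hexp0 w]
    · refine Finset.prod_congr rfl fun j _ => ?_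
      change Complex.exp (((n j : ℤ) : ℂ) * ∑ w ∈ above (Y j).F v, el (B j) w s) = _
      rw [Complex.exp_int_mul, Complex.exp_sum, Finset.prod_congr rfl fun w _ => hexpj j w]
  rw [h3, Finset.prod_congr rfl fun j _ => h4 j, Finset.prod_congr rfl fun v _ => h5 v] at h2
  have hne : LFun B₀ s ≠ 0 := by
    rw [LFun_exp hu₀ hu₀2 (hev₀ s hs0)]
    exact Complex.exp_ne_zero _
  have h6 : RF n m B₀ B S s = (∏ v ∈ S, ((∏ w ∈ above K v, (ev B₀ w s)⁻¹) ^ (-m) *
        ∏ j, (∏ w ∈ above (Y j).F v, (ev (B j) w s)⁻¹) ^ (n j)))⁻¹ := by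
    unfold RF
    rw [← Finset.prod_inv_distrib]
    refine Finset.prod_congr rfl fun v _ => ?_
    rw [mul_inv, ← zpow_neg, neg_neg, ← Finset.prod_inv_distrib]
    congr 1
    refine Finset.prod_congr rfl fun j _ => ?_
    rw [zpow_neg]
  rw [h6, ← h2, mul_inv, ← zpow_neg, neg_neg, mul_assoc, inv_mul_cancel₀, mul_one]
  refine Finset.prod_ne_zero_iff.2 fun j _ => zpow_ne_zero _ ?_
  rw [LFun_exp (hu j) (hu2 j) (hev j s (hsj j))]
  exact Complex.exp_ne_zero _

end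

end Pool.Agent.Q5.VL
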