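import Pool.Agent.Q5.VL.Tate

/-! The laws for the orders at a point of a domain. -/

set_option autoImplicit false
set_option linter.unusedSectionVars false

namespace Pool.Agent.Q5.VL

open NumberField IsDedekindDomain Filter Topology Polynomial Pool.Agent.W353.NF
  Pool.Agent.W401.Cheb Pool.Agent.Q5.BR
open Pool.Agent.W353.EF (IsFrobenius LFun cone)

/-- connected open sets containing a half plane and the point -/
def IsDom (Ω : Set ℂ) (s₁ : ℂ) : Prop :=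
  IsPreconnected Ω ∧ s₁ ∈ Ω ∧ ∃ c : ℝ, ∀ s : ℂ, c < s.re → s ∈ Ω

/-- `L^t` has a continuation to `Ω` of order `k` at `s₁` -/
def PowO (Ω : Set ℂ) (s₁ : ℂ) {F : Type} [Field F] [NumberField F]
    (B : HeightOneSpectrum (𝓞 F) → ℂ[X]) (t k : ℤ) : Prop :=
  ∃ f : ℂ → ℂ, MeromorphicOn f Ω ∧ (∃ c : ℝ, ∀ s : ℂ, c < s.re → f s = (LFun B s) ^ t) ∧
    meromorphicOrderAt f s₁ = k

/-- Euler systems without poles of the factors at `s₁` -/
def ES {K : Type} [Field K] {n : ℕ} (X : Set (MvPolynomial (Fin n) (𝓞 K))) (d i N : ℕ) (s₁ : ℂ)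
    {F : Type} [Field F] [NumberField F] [Algebra K F]
    (B : HeightOneSpectrum (𝓞 F) → ℂ[X]) : Prop :=
  IsSys X d i N B ∧ ∀ w, ev B w s₁ ≠ 0

section
variable {F : Type} [Field F] [NumberField F]

theorem PowO.zero {Ω : Set ℂ} {s₁ : ℂ} {B : HeightOneSpectrum (𝓞 F) → ℂ[X]} :
    PowO Ω s₁ B 0 0 := by
  refine ⟨fun _ => 1, fun _ _ => MeromorphicAt.const _ _, ⟨0, fun s _ => (zpow_zero _).symm⟩, ?_⟩
  have h1 : AnalyticAt ℂ (fun _ : ℂ => (1 : ℂ)) s₁ := analyticAt_const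
  rw [h1.meromorphicOrderAt_eq, h1.analyticOrderAt_eq_zero.2 one_ne_zero]
  rfl

theorem PowO.neg {Ω : Set ℂ} {s₁ : ℂ} {B : HeightOneSpectrum (𝓞 F) → ℂ[X]} {t k : ℤ}
    (h : PowO Ω s₁ B t k) : PowO Ω s₁ B (-t) (-k) := by
  obtain ⟨f, h1, ⟨c, h2⟩, h3⟩ := h
  refine ⟨fun s => (f s)⁻¹, fun s hs => (h1 s hs).fun_inv, ⟨c, fun s hs => ?_⟩, ?_⟩
  · change (f s)⁻¹ = _
    rw [h2 s hs, zpow_neg]
  · rw [fun_meromorphicOrderAt_inv, h3]
    rfl

theorem PowO.add {K : Type} [Field K] [Algebra K F] {n : ℕ}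
    {X : Set (MvPolynomial (Fin n) (𝓞 K))} {d i N : ℕ} {Ω : Set ℂ} {s₁ : ℂ} (hs₁ : s₁ ∈ Ω)
    {B : HeightOneSpectrum (𝓞 F) → ℂ[X]} (hB : IsSys X d i N B) {t k t' k' : ℤ}
    (h : PowO Ω s₁ B t k) (h' : PowO Ω s₁ B t' k') : PowO Ω s₁ B (t + t') (k + k') := by
  obtain ⟨f, h1, ⟨c, h2⟩, h3⟩ := h
  obtain ⟨f', h1', ⟨c', h2'⟩, h3'⟩ := h'
  obtain ⟨c₀, u, -, hu, hu2, hev⟩ := tame hB
  refine ⟨fun s => f s * f' s, fun s hs => (h1 s hs).fun_mul (h1' s hs),
    ⟨max c₀ (max c c'), fun s hs => ?_⟩, ?_⟩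
  · have hne : LFun B s ≠ 0 := by
      rw [LFun_exp hu hu2 (hev s ((le_max_left _ _).trans_lt hs))]
      exact Complex.exp_ne_zero _
    change f s * f' s = _
    rw [h2 s (((le_max_left _ _).trans (le_max_right _ _)).trans_lt hs),
      h2' s (((le_max_right _ _).trans (le_max_right _ _)).trans_lt hs), zpow_add₀ hne]
  · rw [fun_meromorphicOrderAt_mul (h1 _ hs₁) (h1' _ hs₁), h3, h3']
    rfl

/-- the identity theorem -/
theorem PowO.order {Ω : Set ℂ} {s₁ : ℂ} (hΩ : IsDom Ω s₁) {B : HeightOneSpectrum (𝓞 F) → ℂ[X]}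
    {m : ℕ} (hm : m ≠ 0) {r : ℤ} (h : PowO Ω s₁ B (m : ℤ) (m * r)) {f : ℂ → ℂ}
    (hf : MeromorphicOn f Ω) (hf' : ∃ c : ℝ, ∀ s : ℂ, c < s.re → f s = LFun B s) :
    meromorphicOrderAt f s₁ = (r : WithTop ℤ) := by
  obtain ⟨g, hg, ⟨c₂, hg'⟩, hg''⟩ := h
  obtain ⟨c₁, hf'⟩ := hf'
  obtain ⟨hpre, h1, c₃, hhalf⟩ := hΩ
  have hconn : IsConnected Ω := ⟨⟨s₁, h1⟩, hpre⟩
  have hd : MeromorphicOn (fun s => f s ^ m - g s) Ω := fun s hs =>
    ((hf s hs).fun_pow m).fun_sub (hg s hs)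
  set c := max c₁ (max c₂ c₃) with hc
  have hopen : IsOpen {s : ℂ | c < s.re} := isOpen_lt continuous_const Complex.continuous_re
  have hp : c < (((c + 1 : ℝ)) : ℂ).re := by rw [Complex.ofReal_re]; linarith
  have h2 : meromorphicOrderAt (fun s => f s ^ m - g s) ((c + 1 : ℝ) : ℂ) = ⊤ := by
    rw [meromorphicOrderAt_eq_top_iff]
    have h2' : ({s : ℂ | c < s.re} : Set ℂ) ∈ 𝓝 (((c + 1 : ℝ)) : ℂ) := hopen.mem_nhds hp
    filter_upwards [mem_nhdsWithin_of_mem_nhds h2'] with s hs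
    rw [hf' s ((le_max_left _ _).trans_lt hs),
      hg' s (((le_max_left _ _).trans (le_max_right _ _)).trans_lt hs), zpow_natCast, sub_self]
  have h3 : meromorphicOrderAt (fun s => f s ^ m - g s) s₁ = ⊤ := by
    by_contra h4
    have h5 := (hd.exists_meromorphicOrderAt_ne_top_iff_forall hconn).1 ⟨⟨s₁, h1⟩, h4⟩
    exact h5 ⟨_, hhalf _ (((le_max_right _ _).trans (le_max_right _ _)).trans_lt hp)⟩ h2
  rw [meromorphicOrderAt_eq_top_iff] at h3
  have h6 : meromorphicOrderAt (fun s => f s ^ m) s₁ = ((m * r : ℤ) : WithTop ℤ) := by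
    rw [← hg'']
    refine meromorphicOrderAt_congr ?_
    filter_upwards [h3] with s hs
    exact sub_eq_zero.1 hs
  rw [fun_meromorphicOrderAt_pow (hf _ h1)] at h6
  generalize meromorphicOrderAt f s₁ = x at h6
  cases x with
  | top =>
    exfalso
    have h7 : ((m : WithTop ℤ)) * ⊤ = ⊤ := WithTop.mul_top (by exact_mod_cast hm)
    rw [h7] at h6
    exact WithTop.top_ne_coe h6
  | coe x =>
    have h7 : (m : ℤ) * x = m * r := by exact_mod_cast h6
    have h8 : (m : ℤ) ≠ 0 := by exact_mod_cast hm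
    rw [mul_left_cancel₀ h8 h7]

end

section
variable {K : Type} [Field K] [NumberField K] {n : ℕ} {X : Set (MvPolynomial (Fin n) (𝓞 K))}
  {d i N : ℕ} {V : Type} [AddCommGroup V] [Module ℚ V] {ρ : Representation ℚ (GK K) V}

/-- the law for the powers -/
theorem law_cen (hi : i ≤ 2 * d) {Ω : Set ℂ} {s₁ : ℂ} (hΩ : IsDom Ω s₁) (hs₁ : (i : ℝ) / 2 < s₁.re)
    (a : ℤ) (hV : ∀ N : IntermediateField K (AlgebraicClosure K), FiniteDimensional K N →
      FiniteDimensional ℚ (fixV ρ N.val)) :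
    IsLaw (K := K) (fun F _ _ _ t => ∀ B : HeightOneSpectrum (𝓞 F) → ℂ[X],
      ES X d i N s₁ B → PowO Ω s₁ B t (t * (a * rk ρ F))) where
  zero := by
    intro F _ _ _ B _
    rw [zero_mul]
    exact PowO.zero
  add := by
    intro F _ _ _ t u ht hu B hB
    rw [add_mul]
    exact PowO.add hΩ.2.1 hB.1 (ht B hB) (hu B hB)
  neg := by
    intro F _ _ _ t ht B hB
    rw [neg_mul]
    exact PowO.neg (ht B hB)
  step := by
    intro F _ _ _ ι _ Y _ _ nn m hrel t hj B₀ hB₀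
    choose B hB hBne using fun j => exists_sys_up (K := F) hB₀.1 (Y j).F
    obtain ⟨S, c, hS⟩ := sys_pow hrel hi hB₀.1 hB
    choose f hf hf' hf'' using fun j => hj j (B j) ⟨hB j, fun w => hBne j w s₁ hs₁⟩
    choose e hf' using hf'
    have hRF := RF_analytic nn m S hB₀.2 (fun j w => hBne j w s₁ hs₁)
    have hR : MeromorphicAt (RF nn m B₀ B S) s₁ := hRF.1.meromorphicAt
    have hR0 : meromorphicOrderAt (RF nn m B₀ B S) s₁ = ((0 : ℤ) : WithTop ℤ) := by
      rw [hRF.1.meromorphicOrderAt_eq, hRF.1.analyticOrderAt_eq_zero.2 hRF.2]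
      rfl
    have h2 := rank_relation_up ρ hrel hV
    have h3 : ∑ j, nn j * (t * (a * (rk ρ (Y j).F : ℤ))) = m * t * (a * (rk ρ F : ℤ)) := by
      have h4 : m * t * (a * (rk ρ F : ℤ)) = t * a * (m * (rk ρ F : ℤ)) := by ring
      rw [h4, ← h2, Finset.mul_sum]
      exact Finset.sum_congr rfl fun j _ => by ring
    refine ⟨fun s => (RF nn m B₀ B S s) ^ t * ∏ j, (f j s) ^ (nn j), fun s hs => ?_,
      ⟨max c (∑ j, |e j|), fun s hs => ?_⟩, ?_⟩
    · refine MeromorphicAt.fun_mul ?_ (MeromorphicAt.fun_prod fun j _ => ?_)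
      · exact MeromorphicAt.fun_zpow (RF_meromorphic nn m B₀ B S s) t
      · exact MeromorphicAt.fun_zpow (hf j s hs) (nn j)
    · have hsj : ∀ j, e j < s.re := by
        intro j
        refine ((le_abs_self _).trans ?_).trans_lt ((le_max_right _ _).trans_lt hs)
        exact Finset.single_le_sum (f := fun j => |e j|) (fun _ _ => abs_nonneg _)
          (Finset.mem_univ j)
      change (RF nn m B₀ B S s) ^ t * (∏ j, (f j s) ^ (nn j)) = _
      rw [zpow_mul, hS s ((le_max_left _ _).trans_lt hs), mul_zpow]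
      congr 1
      rw [← Finset.prod_zpow]
      refine Finset.prod_congr rfl fun j _ => ?_
      rw [hf' j s (hsj j), ← zpow_mul, ← zpow_mul, mul_comm]
    · rw [fun_meromorphicOrderAt_mul (hR.fun_zpow t)
        (MeromorphicAt.fun_prod fun j _ => (hf j s₁ hΩ.2.1).fun_zpow (nn j)), order_zpow hR hR0,
        mul_zero]
      have h4 : meromorphicOrderAt (fun s => ∏ j, (f j s) ^ (nn j)) s₁ =
          ∑ j, meromorphicOrderAt (fun s => (f j s) ^ (nn j)) s₁ := by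
        rw [← meromorphicOrderAt_prod fun j _ => (hf j s₁ hΩ.2.1).fun_zpow (nn j)]
        congr 1
        ext s
        rw [Finset.prod_apply]
      rw [h4, Finset.sum_congr rfl fun j _ => order_zpow (hf j s₁ hΩ.2.1) (hf'' j) (nn j),
        ← WithTop.coe_sum, h3]
      change ((0 + _ : ℤ) : WithTop ℤ) = _
      rw [zero_add]

end

end Pool.Agent.Q5.VL
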