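import Pool.Agent.Q5.VL.Law

/-! Degree laws and wide families for the L-functions of projective varieties. -/

set_option autoImplicit false
set_option linter.unusedSectionVars false

namespace Pool.Agent.Q5.VL

open NumberField IsDedekindDomain Filter Topology Polynomial Pool.Agent.W353.NF
  Pool.Agent.W401.Cheb Pool.Agent.Q5.BR
open Pool.Agent.W353.EF (IsFrobenius LFun cone)

section
variable {K : Type} [Field K] [NumberField K] {n : ℕ} {X : Set (MvPolynomial (Fin n) (𝓞 K))}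
  {d i N : ℕ}

/-- **Wide families, meromorphic continuation.** -/
theorem wide_mer {𝓕 : Set (IntermediateField K (AlgebraicClosure K))} (hF : HR.Wide 𝓕) :
    ∃ m : ℕ, 0 < m ∧ ∀ (n : ℕ) (X : Set (MvPolynomial (Fin n) (𝓞 K))) (d i N : ℕ), i ≤ 2 * d →
      ∀ (Ω : Set ℂ) (t : ℤ),
      (∀ F ∈ 𝓕, ∀ [NumberField F] (B : HeightOneSpectrum (𝓞 F) → ℂ[X]), IsSys X d i N B →
        PowL Ω B t) →
      ∀ B : HeightOneSpectrum (𝓞 K) → ℂ[X], IsSys X d i N B → PowL Ω B (m * t) := by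
  obtain ⟨ι, _, F, nn, m, hm, hFj, hrel⟩ := HR.wide_relation hF
  refine ⟨m, hm, fun n X d i N hi Ω t h B₀ hB₀ => ?_⟩
  have hfd : ∀ j, FiniteDimensional K (F j) := fun j => hF.1 _ (hFj j)
  have hnf : ∀ j, NumberField (F j) := fun j => NumberField.of_module_finite K _
  let Y : ι → Ext K := fun j => @Ext.mk K _ _ (F j) _ (hnf j) _
  exact mer_rel (Y := Y) hi (m := (m : ℤ)) hrel t (fun j B hB => h (F j) (hFj j) B hB) hB₀

/-- **Wide families, zero-free continuation.** -/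
theorem wide_zf {𝓕 : Set (IntermediateField K (AlgebraicClosure K))} (hF : HR.Wide 𝓕)
    (hi : i ≤ 2 * d) {Ω : Set ℂ} (hΩ : IsOpen Ω) (hsc : IsSimplyConnected Ω) {c₁ : ℝ}
    (hc₁ : ∀ s : ℂ, c₁ < s.re → s ∈ Ω) (hΩi : ∀ s ∈ Ω, (i : ℝ) / 2 < s.re)
    (h : ∀ F ∈ 𝓕, ∀ [NumberField F] (B : HeightOneSpectrum (𝓞 F) → ℂ[X]), IsSys X d i N B →
      PF Ω B → ZF Ω B)
    {B₀ : HeightOneSpectrum (𝓞 K) → ℂ[X]} (hB₀ : IsSys X d i N B₀) (hPF : PF Ω B₀) :
    ZF Ω B₀ := by
  obtain ⟨ι, _, F, nn, m, hm, hFj, hrel⟩ := HR.wide_relation hF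
  have hfd : ∀ j, FiniteDimensional K (F j) := fun j => hF.1 _ (hFj j)
  have hnf : ∀ j, NumberField (F j) := fun j => NumberField.of_module_finite K _
  let Y : ι → Ext K := fun j => @Ext.mk K _ _ (F j) _ (hnf j) _
  exact zf_rel (Y := Y) hΩ hsc hc₁ hΩi hi hm hrel (fun j B hB => h (F j) (hFj j) B hB) hB₀ hPF

/-- **The power law.** -/
theorem power_law (hi : i ≤ 2 * d) {Ω : Set ℂ} {M : ℕ}
    (h : ∀ (F : Type) [Field F] [NumberField F] [Algebra K F], M ∣ Module.finrank K F →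
      ∀ B : HeightOneSpectrum (𝓞 F) → ℂ[X], IsSys X d i N B → PowL Ω B 1) (c : ℕ) :
    ∀ (F : Type) [Field F] [NumberField F] [Algebra K F], M ∣ Module.finrank K F * c →
      ∀ B : HeightOneSpectrum (𝓞 F) → ℂ[X], IsSys X d i N B → PowL Ω B (c : ℤ) := by
  classical
  induction c using Nat.strong_induction_on with
  | _ c ih =>
    intro F _ _ _ hM
    rcases Nat.eq_zero_or_pos c with rfl | hc
    · intro B _
      rw [Nat.cast_zero]
      exact PowL.zero Ω B
    rcases Nat.eq_or_lt_of_le (Nat.succ_le_of_lt hc) with h1 | h1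
    · have hc1 : c = 1 := h1.symm
      subst hc1
      rw [mul_one] at hM
      rw [Nat.cast_one]
      exact h F hM
    · obtain ⟨p, hp, c', rfl⟩ := Nat.exists_prime_and_dvd (show c ≠ 1 by omega)
      have hpf : Fact p.Prime := ⟨hp⟩
      have hc' : 0 < c' := Nat.pos_of_mul_pos_left hc
      have hlt : c' < p * c' := by
        have := hp.two_le
        nlinarith
      intro B₀ hB₀
      have hinf : {l : ℕ | l.Prime}.Infinite := Nat.infinite_setOfPred_prime
      obtain ⟨ι, _, Y, nn, hdeg, -, hrel⟩ := exists_relation F p (T := {l : ℕ | l.Prime})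
        (fun l hl => hl) hinf
      let _ : ∀ j, Algebra K (Y j).F := fun j =>
        ((algebraMap F (Y j).F).comp (algebraMap K F)).toAlgebra
      have : ∀ j, IsScalarTower K F (Y j).F := fun j =>
        IsScalarTower.of_algebraMap_eq fun x => rfl
      have h6 : ((p * c' : ℕ) : ℤ) = (p : ℤ) * (c' : ℤ) := by push_cast; rfl
      rw [h6]
      refine mer_rel hi (m := (p : ℤ)) hrel (c' : ℤ) (fun j B hB => ?_) hB₀
      have h3 : M ∣ Module.finrank K (Y j).F * c' := by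
        rw [← Module.finrank_mul_finrank K F (Y j).F]
        rcases hdeg j with h4 | h4
        · rw [h4, mul_assoc]
          exact hM
        · rw [h4, sq, mul_assoc, mul_assoc, mul_left_comm]
          exact hM.mul_left p
      exact ih c' hlt (Y j).F h3 B hB

/-- **The degree law, meromorphic continuation.** -/
theorem sparse_law (hi : i ≤ 2 * d) {Ω : Set ℂ} {D : Set ℕ}
    (hD : ∀ d ∈ D, ∀ n : ℕ, 0 < n → d * n ∈ D) (hD' : ∀ g : ℕ, (∀ d ∈ D, g ∣ d) → g = 1)
    (h : ∀ (F : Type) [Field F] [NumberField F] [Algebra K F], Module.finrank K F ∈ D →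
      ∀ B : HeightOneSpectrum (𝓞 F) → ℂ[X], IsSys X d i N B → PowL Ω B 1)
    (F : Type) [Field F] [NumberField F] [Algebra K F] (B : HeightOneSpectrum (𝓞 F) → ℂ[X])
    (hB : IsSys X d i N B) : PowL Ω B 1 := by
  refine powL_one_of hB hD' fun d hd => ?_
  refine power_law hi (M := d) ?_ d F (dvd_mul_left _ _) B hB
  intro F' _ _ _ hdv
  obtain ⟨n, hn⟩ := hdv
  refine h F' ?_
  rw [hn]
  refine hD d hd n (Nat.pos_of_ne_zero ?_)
  rintro rfl
  rw [mul_zero] at hn
  exact (Module.finrank_pos (R := K) (M := F')).ne' hn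

/-- **The degree law, zero-free continuation.** -/
theorem zf_law (hi : i ≤ 2 * d) {Ω : Set ℂ} (hΩ : IsOpen Ω) (hsc : IsSimplyConnected Ω) {c₁ : ℝ}
    (hc₁ : ∀ s : ℂ, c₁ < s.re → s ∈ Ω) (hΩi : ∀ s ∈ Ω, (i : ℝ) / 2 < s.re) {M : ℕ} (hM : 0 < M)
    (h : ∀ (F : Type) [Field F] [NumberField F] [Algebra K F], M ∣ Module.finrank K F →
      ∀ B : HeightOneSpectrum (𝓞 F) → ℂ[X], IsSys X d i N B → PF Ω B → ZF Ω B)
    (F : Type) [Field F] [NumberField F] [Algebra K F] (B : HeightOneSpectrum (𝓞 F) → ℂ[X])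
    (hB : IsSys X d i N B) (hPF : PF Ω B) : ZF Ω B := by
  have hw := HR.wide_deg (K := F) hM
  obtain ⟨ι, _, G, nn, m, hm, hFj, hrel⟩ := HR.wide_relation hw
  have hfd : ∀ j, FiniteDimensional F (G j) := fun j => hw.1 _ (hFj j)
  have hnf : ∀ j, NumberField (G j) := fun j => NumberField.of_module_finite F _
  obtain ⟨Y, hY, hrel⟩ : ∃ Y : ι → Ext F, (∀ j, M ∣ Module.finrank F (Y j).F) ∧
      ∀ σ : GK F, ∑ j, nn j * (fixn F (Y j).F σ : ℤ) = m :=
    ⟨fun j => @Ext.mk F _ _ (G j) _ (hnf j) _, fun j => (hFj j).2, hrel⟩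
  let _ : ∀ j, Algebra K (Y j).F := fun j =>
    ((algebraMap F (Y j).F).comp (algebraMap K F)).toAlgebra
  have : ∀ j, IsScalarTower K F (Y j).F := fun j =>
    IsScalarTower.of_algebraMap_eq fun x => rfl
  refine zf_rel (Y := Y) hΩ hsc hc₁ hΩi hi hm hrel (fun j B hB hPF => ?_) hB hPF
  refine h (Y j).F ?_ B hB hPF
  rw [← Module.finrank_mul_finrank K F (Y j).F]
  exact (hY j).mul_left _

/-- **The power law in radical extensions.** -/
theorem power_law_radical (hi : i ≤ 2 * d) {Ω : Set ℂ} (p : ℕ) [hp : Fact p.Prime] {T : Set ℕ}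
    (hpr : ∀ l ∈ T, l.Prime) (hinf : T.Infinite) (k : ℕ)
    (h : ∀ (F : Type) [Field F] [NumberField F] [Algebra K F], IsRadical T p K F →
      p ^ k ∣ Module.finrank K F →
      ∀ B : HeightOneSpectrum (𝓞 F) → ℂ[X], IsSys X d i N B → PowL Ω B 1) (t : ℕ) :
    ∀ (F : Type) [Field F] [NumberField F] [Algebra K F], IsRadical T p K F →
      p ^ k ∣ Module.finrank K F * p ^ t →
      ∀ B : HeightOneSpectrum (𝓞 F) → ℂ[X], IsSys X d i N B → PowL Ω B ((p ^ t : ℕ) : ℤ) := by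
  classical
  induction t with
  | zero =>
    intro F _ _ _ hr hM
    rw [pow_zero, mul_one] at hM
    rw [pow_zero, Nat.cast_one]
    exact h F hr hM
  | succ t ih =>
    intro F _ _ _ hr hM B₀ hB₀
    obtain ⟨ι, _, Y, nn, hdeg, hrad, hrel⟩ := exists_relation F p hpr hinf
    let _ : ∀ j, Algebra K (Y j).F := fun j =>
      ((algebraMap F (Y j).F).comp (algebraMap K F)).toAlgebra
    have : ∀ j, IsScalarTower K F (Y j).F := fun j =>
      IsScalarTower.of_algebraMap_eq fun x => rfl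
    have h6 : ((p ^ (t + 1) : ℕ) : ℤ) = (p : ℤ) * ((p ^ t : ℕ) : ℤ) := by push_cast; ring
    rw [h6]
    refine mer_rel hi (m := (p : ℤ)) hrel ((p ^ t : ℕ) : ℤ) (fun j B hB => ?_) hB₀
    have h3 : p ^ k ∣ Module.finrank K (Y j).F * p ^ t := by
      rw [← Module.finrank_mul_finrank K F (Y j).F]
      rw [pow_succ'] at hM
      rcases hdeg j with h4 | h4
      · rw [h4, mul_assoc]
        exact hM
      · rw [h4, sq, mul_assoc, mul_assoc, mul_left_comm]
        exact hM.mul_left p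
    exact ih (Y j).F (hr.trans (hrad j)) h3 B hB

/-- **Zero-free continuation, radical extensions.** -/
theorem zf_law_radical (hi : i ≤ 2 * d) {Ω : Set ℂ} (hΩ : IsOpen Ω) (hsc : IsSimplyConnected Ω)
    {c₁ : ℝ} (hc₁ : ∀ s : ℂ, c₁ < s.re → s ∈ Ω) (hΩi : ∀ s ∈ Ω, (i : ℝ) / 2 < s.re)
    (p : ℕ) [hp : Fact p.Prime] {T : Set ℕ}
    (hpr : ∀ l ∈ T, l.Prime) (hinf : T.Infinite) (k : ℕ)
    (h : ∀ (F : Type) [Field F] [NumberField F] [Algebra K F], IsRadical T p K F →
      p ^ k ∣ Module.finrank K F →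
      ∀ B : HeightOneSpectrum (𝓞 F) → ℂ[X], IsSys X d i N B → PF Ω B → ZF Ω B) (t : ℕ) :
    ∀ (F : Type) [Field F] [NumberField F] [Algebra K F], IsRadical T p K F →
      p ^ k ∣ Module.finrank K F * p ^ t →
      ∀ B : HeightOneSpectrum (𝓞 F) → ℂ[X], IsSys X d i N B → PF Ω B → ZF Ω B := by
  classical
  induction t with
  | zero =>
    intro F _ _ _ hr hM
    rw [pow_zero, mul_one] at hM
    exact h F hr hM
  | succ t ih =>
    intro F _ _ _ hr hM B₀ hB₀ hPF
    obtain ⟨ι, _, Y, nn, hdeg, hrad, hrel⟩ := exists_relation F p hpr hinf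
    let _ : ∀ j, Algebra K (Y j).F := fun j =>
      ((algebraMap F (Y j).F).comp (algebraMap K F)).toAlgebra
    have : ∀ j, IsScalarTower K F (Y j).F := fun j =>
      IsScalarTower.of_algebraMap_eq fun x => rfl
    refine zf_rel hΩ hsc hc₁ hΩi hi (m := p) hp.out.pos hrel (fun j B hB hPF => ?_) hB₀ hPF
    have h3 : p ^ k ∣ Module.finrank K (Y j).F * p ^ t := by
      rw [← Module.finrank_mul_finrank K F (Y j).F]
      rw [pow_succ'] at hM
      rcases hdeg j with h4 | h4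
      · rw [h4, mul_assoc]
        exact hM
      · rw [h4, sq, mul_assoc, mul_assoc, mul_left_comm]
        exact hM.mul_left p
    exact ih (Y j).F (hr.trans (hrad j)) h3 B hB hPF

end

end Pool.Agent.Q5.VL
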