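import Pool.Agent.Q5.VL.Rk
import Pool.Agent.Q5.HR.Crit

/-! Finiteness of the invariants. -/

set_option autoImplicit false
set_option linter.unusedSectionVars false

namespace Pool.Agent.Q5.VL

open NumberField Pool.Agent.W353.NF Pool.Agent.W401.Cheb Pool.Agent.Q5.BR

section
variable {K : Type} [Field K] [NumberField K] {V : Type} [AddCommGroup V] [Module ℚ V]
  (ρ : Representation ℚ (GK K) V)

theorem fixV_le {F : Type} [Field F] [Algebra K F] (i j : F →ₐ[K] AlgebraicClosure K) :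
    ∃ e : V ≃ₗ[ℚ] V, fixV ρ j ≤ (fixV ρ i).map (e : V →ₗ[ℚ] V) := by
  obtain ⟨τ, hτ⟩ := exists_conj i j
  have h1 : ∀ v, ρ τ⁻¹ (ρ τ v) = v := by
    intro v
    have h := congrArg (fun f => f v) (map_mul ρ τ⁻¹ τ)
    rw [inv_mul_cancel, map_one] at h
    exact h.symm
  have h2 : ∀ v, ρ τ (ρ τ⁻¹ v) = v := by
    intro v
    have h := congrArg (fun f => f v) (map_mul ρ τ τ⁻¹)
    rw [mul_inv_cancel, map_one] at h
    exact h.symm
  let e : V ≃ₗ[ℚ] V := LinearEquiv.ofLinearMap (ρ τ) (ρ τ⁻¹) (LinearMap.ext h2) (LinearMap.ext h1)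
  refine ⟨e, ?_⟩
  intro v hv
  refine ⟨ρ τ⁻¹ v, ?_, h2 v⟩
  intro σ hσ
  have h4 : ((τ * σ * τ⁻¹ : GK K) : AlgebraicClosure K →ₐ[K] AlgebraicClosure K).comp j = j := by
    apply AlgHom.ext
    intro z
    change τ (σ (τ⁻¹ (j z))) = j z
    have h5 : τ (i z) = j z := DFunLike.congr_fun hτ z
    have h6 : σ (i z) = i z := DFunLike.congr_fun hσ z
    have h8 : τ⁻¹ (j z) = i z := by
      rw [← h5]
      exact τ.symm_apply_apply (i z)
    rw [h8, h6, h5]
  have h7 := hv _ h4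
  rw [map_mul, map_mul] at h7
  change ρ τ (ρ σ (ρ τ⁻¹ v)) = v at h7
  rw [← h1 (ρ σ (ρ τ⁻¹ v)), h7]

theorem fin_fixV {F : Type} [Field F] [Algebra K F] {i : F →ₐ[K] AlgebraicClosure K}
    (h : FiniteDimensional ℚ (fixV ρ i)) (j : F →ₐ[K] AlgebraicClosure K) :
    FiniteDimensional ℚ (fixV ρ j) := by
  obtain ⟨e, he⟩ := fixV_le ρ i j
  have h1 : FiniteDimensional ℚ ((fixV ρ i).map (e : V →ₗ[ℚ] V)) := inferInstance
  exact Submodule.finiteDimensional_of_le he

theorem fixV_mono {N N' : IntermediateField K (AlgebraicClosure K)} (h : N ≤ N') :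
    fixV ρ N.val ≤ fixV ρ N'.val := by
  intro v hv σ hσ
  refine hv σ ?_
  apply AlgHom.ext
  intro x
  exact DFunLike.congr_fun hσ ⟨x.1, h x.2⟩

/-- finiteness over a cofinal family -/
theorem fin_all (h : ∀ N : IntermediateField K (AlgebraicClosure K), FiniteDimensional K N →
      ∃ N' : IntermediateField K (AlgebraicClosure K), N ≤ N' ∧ FiniteDimensional ℚ (fixV ρ N'.val))
    (N : IntermediateField K (AlgebraicClosure K)) (hN : FiniteDimensional K N) :
    FiniteDimensional ℚ (fixV ρ N.val) := by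
  obtain ⟨N', h1, h2⟩ := h N hN
  exact Submodule.finiteDimensional_of_le (fixV_mono ρ h1)

/-- wide families are cofinal -/
theorem wide_cofinal {𝓕 : Set (IntermediateField K (AlgebraicClosure K))} (hF : HR.Wide 𝓕)
    (N : IntermediateField K (AlgebraicClosure K)) (hN : FiniteDimensional K N) :
    ∃ N' ∈ 𝓕, N ≤ N' := by
  obtain ⟨F, hF1, -⟩ := hF.2.2 1
  have h1 := hF.1 F hF1
  have h3 : FiniteDimensional K (N ⊔ F : IntermediateField K (AlgebraicClosure K)) :=
    IntermediateField.finiteDimensional_sup N F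
  exact ⟨N ⊔ F, hF.2.1 F hF1 _ h3 le_sup_right, le_sup_left⟩

end

end Pool.Agent.Q5.VL
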