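import Pool.Agent.Q5.VL.Rel
import Pool.Agent.Q5.HR.Crit
import Mathlib.Analysis.Complex.HasPrimitives

/-! Degree laws and wide families for the L-functions of projective varieties. -/

set_option autoImplicit false
set_option linter.unusedSectionVars false

namespace Pool.Agent.Q5.VL

open NumberField IsDedekindDomain Filter Topology Polynomial Pool.Agent.W353.NF
  Pool.Agent.W401.Cheb Pool.Agent.Q5.BR
open Pool.Agent.W353.EF (IsFrobenius LFun cone)

/-- branches of the logarithm of an analytic function -/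
theorem exists_log {U : Set ℂ} (hU : IsOpen U) (hsc : IsSimplyConnected U) {Φ : ℂ → ℂ}
    (hΦ : DifferentiableOn ℂ Φ U) (h0 : ∀ q ∈ U, Φ q ≠ 0) :
    ∃ g : ℂ → ℂ, DifferentiableOn ℂ g U ∧ ∀ q ∈ U, Complex.exp (g q) = Φ q := by
  obtain ⟨g, hg1, hg2⟩ := Complex.exists_continuousOn_eqOn_exp_comp hsc hU hΦ.continuousOn
    (by rintro ⟨q, hq, h⟩; exact h0 q hq h)
  refine ⟨g, ?_, fun q hq => hg2 hq⟩
  intro q hq
  have hgc : ContinuousAt g q := hg1.continuousAt (hU.mem_nhds hq)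
  have hΦd : DifferentiableAt ℂ Φ q := hΦ.differentiableAt (hU.mem_nhds hq)
  have hslit : Φ q / Φ q ∈ Complex.slitPlane := by
    rw [div_self (h0 q hq)]; exact Complex.one_mem_slitPlane
  have hd : DifferentiableAt ℂ (fun w => g q + Complex.log (Φ w / Φ q)) q :=
    ((hΦd.div_const _).clog hslit).const_add _
  refine (hd.congr_of_eventuallyEq ?_).differentiableWithinAt
  have hlc : ContinuousAt (fun w => g w - (g q + Complex.log (Φ w / Φ q))) q :=
    hgc.sub hd.continuousAt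
  have h1 : Tendsto (fun w => g w - (g q + Complex.log (Φ w / Φ q))) (𝓝 q) (𝓝 0) := by
    have := hlc.tendsto
    simpa [div_self (h0 q hq)] using this
  have h2 : ∀ᶠ w in 𝓝 q, ‖g w - (g q + Complex.log (Φ w / Φ q))‖ < 1 := by
    have := h1.norm
    rw [norm_zero] at this
    exact this.eventually (gt_mem_nhds one_pos)
  filter_upwards [h2, hU.mem_nhds hq] with w hw hwU
  have h3 : Complex.exp (g w - (g q + Complex.log (Φ w / Φ q))) = 1 := by
    have hgw : Complex.exp (g w) = Φ w := hg2 hwU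
    have hgq : Complex.exp (g q) = Φ q := hg2 hq
    rw [Complex.exp_sub, Complex.exp_add, hgw, hgq,
      Complex.exp_log (div_ne_zero (h0 w hwU) (h0 q hq))]
    have := h0 w hwU
    have := h0 q hq
    field_simp
  obtain ⟨n, hn⟩ := Complex.exp_eq_one_iff.1 h3
  have hn0 : n = 0 := by
    by_contra hne
    rw [hn] at hw
    rw [norm_mul, norm_mul, norm_mul, Complex.norm_I, Complex.norm_intCast, Complex.norm_real,
      Real.norm_of_nonneg Real.pi_pos.le] at hw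
    have h4 : (1:ℝ) ≤ |(n:ℝ)| := by
      rw [← Int.cast_abs]
      exact_mod_cast Int.one_le_abs hne
    have h5 := Real.pi_gt_three
    simp at hw
    nlinarith
  rw [hn0] at hn
  simp at hn
  exact sub_eq_zero.1 hn

section
variable {K₀ K : Type} [Field K₀] [Field K] [NumberField K] [Algebra K₀ K] {n : ℕ}
  {X : Set (MvPolynomial (Fin n) (𝓞 K₀))} {d i N : ℕ}

/-- Euler systems over an extension field -/
theorem exists_sys_up {B₀ : HeightOneSpectrum (𝓞 K) → ℂ[X]} (hB₀ : IsSys X d i N B₀)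
    (F : Type) [Field F] [NumberField F] [Algebra K₀ F] [Algebra K F] [IsScalarTower K₀ K F] :
    ∃ B : HeightOneSpectrum (𝓞 F) → ℂ[X], IsSys X d i N B ∧
      ∀ w, ∀ s : ℂ, (i : ℝ) / 2 < s.re → ev B w s ≠ 0 := by
  classical
  refine ⟨fun w => if h : ∃ α : Fin N → ℂ, IsFrobenius X d i (w.under (𝓞 K)) α then
    ∏ j, (1 - C (h.choose j ^ rdeg K w) * Polynomial.X) else 1, ⟨?_, ?_⟩, ?_⟩
  · have h1 := hB₀.1
    rw [eventually_cofinite] at h1 ⊢
    have h2 : ((fun w : HeightOneSpectrum (𝓞 F) => w.under (𝓞 K)) ⁻¹'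
        {v | ¬ ∃ α : Fin N → ℂ, IsFrobenius X d i v α ∧
          ∀ z : ℂ, (B₀ v).eval z = ∏ j, (1 - α j * z)}).Finite :=
      Set.Finite.preimage' h1 fun v _ => above_finite v
    refine h2.subset fun w hw hw' => hw ?_
    have h3 : ∃ α : Fin N → ℂ, IsFrobenius X d i (w.under (𝓞 K)) α := by
      obtain ⟨α, hα, -⟩ := hw'
      exact ⟨α, hα⟩
    refine ⟨_, frob_up h3.choose_spec, fun z => ?_⟩
    change Polynomial.eval z (if h : ∃ α : Fin N → ℂ, IsFrobenius X d i (w.under (𝓞 K)) α then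
      ∏ j, (1 - C (h.choose j ^ rdeg K w) * Polynomial.X) else 1) = _
    rw [dif_pos h3, Polynomial.eval_prod]
    refine Finset.prod_congr rfl fun j _ => ?_
    simp
  · intro w
    change Polynomial.eval 0 (if h : ∃ α : Fin N → ℂ, IsFrobenius X d i (w.under (𝓞 K)) α then
      ∏ j, (1 - C (h.choose j ^ rdeg K w) * Polynomial.X) else 1) = 1
    split_ifs with h
    · rw [Polynomial.eval_prod]
      refine Finset.prod_eq_one fun j _ => ?_
      simp
    · simp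
  · intro w s hs
    unfold ev
    change Polynomial.eval _ (if h : ∃ α : Fin N → ℂ, IsFrobenius X d i (w.under (𝓞 K)) α then
      ∏ j, (1 - C (h.choose j ^ rdeg K w) * Polynomial.X) else 1) ≠ 0
    split_ifs with h
    · rw [Polynomial.eval_prod, Finset.prod_ne_zero_iff]
      intro j _ h0
      have h1 := frob_norm (frob_up (K := K) h.choose_spec) j
      have h2 : h.choose j ^ rdeg K w * ((Ideal.absNorm w.asIdeal : ℕ) : ℂ) ^ (-s) = 1 := by
        simp only [Polynomial.eval_sub, Polynomial.eval_one, Polynomial.eval_mul,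
          Polynomial.eval_C, Polynomial.eval_X] at h0
        exact (sub_eq_zero.1 h0).symm
      have h3 := congrArg (fun z : ℂ => ‖z‖) h2
      simp only [norm_mul, norm_one] at h3
      have hq := one_lt_q w
      rw [h1, norm_q, ← Real.rpow_add (by linarith)] at h3
      have h4 : (Ideal.absNorm w.asIdeal : ℝ) ^ ((i : ℝ) / 2 + -s.re) < 1 :=
        Real.rpow_lt_one_of_one_lt_of_neg hq (by linarith)
      exact h4.ne h3
    · simp

/-- the power `L^t` has a meromorphic continuation to `Ω` -/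
def PowL (Ω : Set ℂ) {F : Type} [Field F] [NumberField F] (B : HeightOneSpectrum (𝓞 F) → ℂ[X])
    (t : ℤ) : Prop :=
  ∃ f : ℂ → ℂ, MeromorphicOn f Ω ∧ ∃ c : ℝ, ∀ s : ℂ, c < s.re → f s = (LFun B s) ^ t

/-- zero-free continuation to `Ω` -/
def ZF (Ω : Set ℂ) {F : Type} [Field F] [NumberField F] (B : HeightOneSpectrum (𝓞 F) → ℂ[X]) :
    Prop :=
  ∃ f : ℂ → ℂ, DifferentiableOn ℂ f Ω ∧ (∀ s ∈ Ω, f s ≠ 0) ∧
    ∃ c : ℝ, ∀ s : ℂ, c < s.re → f s = LFun B s

/-- no Euler factor has a pole in `Ω` -/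
def PF (Ω : Set ℂ) {F : Type} [Field F] [NumberField F] (B : HeightOneSpectrum (𝓞 F) → ℂ[X]) :
    Prop := ∀ w, ∀ s ∈ Ω, ev B w s ≠ 0

theorem PowL.zero (Ω : Set ℂ) (B : HeightOneSpectrum (𝓞 K) → ℂ[X]) : PowL Ω B 0 :=
  ⟨fun _ => 1, fun _ _ => MeromorphicAt.const _ _, 0, fun _ _ => (zpow_zero _).symm⟩

theorem LFun_ne {B : HeightOneSpectrum (𝓞 K) → ℂ[X]} (hB : IsSys X d i N B) :
    ∃ c : ℝ, ∀ s : ℂ, c < s.re → LFun B s ≠ 0 := by
  obtain ⟨c, u, -, hu, hu2, hev⟩ := tame hB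
  refine ⟨c, fun s hs => ?_⟩
  rw [LFun_exp hu hu2 (hev s hs)]
  exact Complex.exp_ne_zero _

theorem PowL.add {Ω : Set ℂ} {B : HeightOneSpectrum (𝓞 K) → ℂ[X]} (hB : IsSys X d i N B)
    {t u : ℤ} (ht : PowL Ω B t) (hu : PowL Ω B u) : PowL Ω B (t + u) := by
  obtain ⟨f, hf, c, hf'⟩ := ht
  obtain ⟨g, hg, c', hg'⟩ := hu
  obtain ⟨c₀, hne⟩ := LFun_ne hB
  refine ⟨fun s => f s * g s, fun s hs => (hf s hs).mul (hg s hs), max c₀ (max c c'),
    fun s hs => ?_⟩
  change f s * g s = _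
  rw [hf' s (((le_max_left _ _).trans (le_max_right _ _)).trans_lt hs),
    hg' s (((le_max_right _ _).trans (le_max_right _ _)).trans_lt hs),
    zpow_add₀ (hne s ((le_max_left _ _).trans_lt hs))]

theorem PowL.neg {Ω : Set ℂ} {B : HeightOneSpectrum (𝓞 K) → ℂ[X]} {t : ℤ}
    (ht : PowL Ω B t) : PowL Ω B (-t) := by
  obtain ⟨f, hf, c, hf'⟩ := ht
  refine ⟨fun s => (f s)⁻¹, fun s hs => (hf s hs).inv, c, fun s hs => ?_⟩
  change (f s)⁻¹ = _
  rw [hf' s hs, zpow_neg]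

/-- the subgroup of the exponents -/
def powGroup (Ω : Set ℂ) {B : HeightOneSpectrum (𝓞 K) → ℂ[X]} (hB : IsSys X d i N B) :
    AddSubgroup ℤ where
  carrier := {t | PowL Ω B t}
  zero_mem' := PowL.zero Ω B
  add_mem' := fun ht hu => PowL.add hB ht hu
  neg_mem' := fun ht => PowL.neg ht

/-- the exponents: `gcd` -/
theorem powL_one_of {Ω : Set ℂ} {B : HeightOneSpectrum (𝓞 K) → ℂ[X]} (hB : IsSys X d i N B)
    {D : Set ℕ} (hD : ∀ g : ℕ, (∀ d ∈ D, g ∣ d) → g = 1) (h : ∀ d ∈ D, PowL Ω B (d : ℤ)) :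
    PowL Ω B 1 := by
  obtain ⟨g, hg⟩ := Int.subgroup_cyclic (powGroup Ω hB)
  rw [← AddSubgroup.zmultiples_eq_closure] at hg
  have h1 : g.natAbs = 1 := by
    apply hD
    intro d hd
    have h2 : (d : ℤ) ∈ powGroup Ω hB := h d hd
    rw [hg, Int.mem_zmultiples_iff] at h2
    rwa [← Int.natCast_dvd_natCast, Int.natCast_natAbs, abs_dvd]
  have h3 : (1 : ℤ) ∈ powGroup Ω hB := by
    rw [hg, Int.mem_zmultiples_iff]
    rcases Int.natAbs_eq g with h4 | h4
    · rw [h4, h1]; norm_num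
    · rw [h4, h1]; norm_num
  exact h3

theorem RF_meromorphic {ι : Type} [Fintype ι] {Y : ι → Ext K} (n : ι → ℤ) (m : ℤ)
    (B₀ : HeightOneSpectrum (𝓞 K) → ℂ[X]) (B : ∀ j, HeightOneSpectrum (𝓞 (Y j).F) → ℂ[X])
    (S : Finset (HeightOneSpectrum (𝓞 K))) (s : ℂ) : MeromorphicAt (RF n m B₀ B S) s := by
  have hm : ∀ (F : Type) [Field F] [NumberField F] (B : HeightOneSpectrum (𝓞 F) → ℂ[X])
      (w : HeightOneSpectrum (𝓞 F)), MeromorphicAt (fun s => (ev B w s)⁻¹) s :=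
    fun F _ _ B w => ((differentiable_ev B w).analyticAt s).meromorphicAt.inv
  unfold RF
  refine MeromorphicAt.fun_prod fun v _ => ?_
  refine MeromorphicAt.fun_mul ?_ (MeromorphicAt.fun_prod fun j _ => ?_)
  · exact MeromorphicAt.fun_zpow (MeromorphicAt.fun_prod fun w _ => hm _ _ _) _
  · exact MeromorphicAt.fun_zpow (MeromorphicAt.fun_prod fun w _ => hm _ _ _) _

theorem RF_zf {ι : Type} [Fintype ι] {Y : ι → Ext K} (n : ι → ℤ) (m : ℤ)
    {B₀ : HeightOneSpectrum (𝓞 K) → ℂ[X]} {B : ∀ j, HeightOneSpectrum (𝓞 (Y j).F) → ℂ[X]}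
    (S : Finset (HeightOneSpectrum (𝓞 K))) {Ω : Set ℂ} (h0 : PF Ω B₀) (hj : ∀ j, PF Ω (B j))
    {s : ℂ} (hs : s ∈ Ω) : DifferentiableAt ℂ (RF n m B₀ B S) s ∧ RF n m B₀ B S s ≠ 0 := by
  have hm : ∀ (F : Type) [Field F] [NumberField F] (B : HeightOneSpectrum (𝓞 F) → ℂ[X])
      (w : HeightOneSpectrum (𝓞 F)), ev B w s ≠ 0 →
      DifferentiableAt ℂ (fun s => (ev B w s)⁻¹) s :=
    fun F _ _ B w h => (differentiable_ev B w s).inv h
  constructor
  · unfold RF
    refine DifferentiableAt.fun_finsetProd fun v _ => ?_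
    refine DifferentiableAt.mul ?_ (DifferentiableAt.fun_finsetProd fun j _ => ?_)
    · refine DifferentiableAt.zpow (DifferentiableAt.fun_finsetProd fun w _ =>
        hm _ _ _ (h0 w s hs)) (Or.inl ?_)
      exact Finset.prod_ne_zero_iff.2 fun w _ => inv_ne_zero (h0 w s hs)
    · refine DifferentiableAt.zpow (DifferentiableAt.fun_finsetProd fun w _ =>
        hm _ _ _ (hj j w s hs)) (Or.inl ?_)
      exact Finset.prod_ne_zero_iff.2 fun w _ => inv_ne_zero (hj j w s hs)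
  · unfold RF
    refine Finset.prod_ne_zero_iff.2 fun v _ => mul_ne_zero (zpow_ne_zero _ ?_)
      (Finset.prod_ne_zero_iff.2 fun j _ => zpow_ne_zero _ ?_)
    · exact Finset.prod_ne_zero_iff.2 fun w _ => inv_ne_zero (h0 w s hs)
    · exact Finset.prod_ne_zero_iff.2 fun w _ => inv_ne_zero (hj j w s hs)

/-- **The meromorphic continuation in a relation.** -/
theorem mer_rel {Ω : Set ℂ} (hi : i ≤ 2 * d) {ι : Type} [Fintype ι] {Y : ι → Ext K}
    [∀ j, Algebra K₀ (Y j).F] [∀ j, IsScalarTower K₀ K (Y j).F] {n : ι → ℤ} {m : ℤ}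
    (hrel : ∀ σ : GK K, ∑ j, n j * (fixn K (Y j).F σ : ℤ) = m) (t : ℤ)
    (h : ∀ j, ∀ B : HeightOneSpectrum (𝓞 (Y j).F) → ℂ[X], IsSys X d i N B → PowL Ω B t)
    {B₀ : HeightOneSpectrum (𝓞 K) → ℂ[X]} (hB₀ : IsSys X d i N B₀) : PowL Ω B₀ (m * t) := by
  choose B hB _ using fun j => exists_sys_up hB₀ (Y j).F
  obtain ⟨S, c, hS⟩ := sys_pow hrel hi hB₀ hB
  choose f hf e hf' using fun j => h j (B j) (hB j)
  refine ⟨fun s => (RF n m B₀ B S s) ^ t * ∏ j, (f j s) ^ (n j), fun s hs => ?_,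
    max c (∑ j, |e j|), fun s hs => ?_⟩
  · refine MeromorphicAt.fun_mul ?_ (MeromorphicAt.fun_prod fun j _ => ?_)
    · exact MeromorphicAt.fun_zpow (RF_meromorphic n m B₀ B S s) t
    · exact MeromorphicAt.fun_zpow (hf j s hs) (n j)
  · have hsj : ∀ j, e j < s.re := by
      intro j
      refine ((le_abs_self _).trans ?_).trans_lt ((le_max_right _ _).trans_lt hs)
      exact Finset.single_le_sum (f := fun j => |e j|) (fun _ _ => abs_nonneg _) (Finset.mem_univ j)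
    rw [zpow_mul, hS s ((le_max_left _ _).trans_lt hs), mul_zpow]
    change _ * (∏ j, (f j s) ^ (n j)) = _
    congr 1
    rw [← Finset.prod_zpow]
    refine Finset.prod_congr rfl fun j _ => ?_
    rw [hf' j s (hsj j), ← zpow_mul, ← zpow_mul, mul_comm]

/-- **Roots of zero-free functions.** -/
theorem zf_root {Ω : Set ℂ} (hΩ : IsOpen Ω) (hsc : IsSimplyConnected Ω) {c₁ : ℝ}
    (hc₁ : ∀ s : ℂ, c₁ < s.re → s ∈ Ω) {B : HeightOneSpectrum (𝓞 K) → ℂ[X]}
    (hB : IsSys X d i N B) {m : ℕ} (hm : 0 < m) {h : ℂ → ℂ} (hh : DifferentiableOn ℂ h Ω)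
    (hh0 : ∀ s ∈ Ω, h s ≠ 0) {c₂ : ℝ} (hc₂ : ∀ s : ℂ, c₂ < s.re → h s = (LFun B s) ^ m) :
    ZF Ω B := by
  obtain ⟨g, hg, hg'⟩ := exists_log hΩ hsc hh hh0
  obtain ⟨c, u, -, hu, hu2, hev⟩ := tame hB
  set c₃ : ℝ := max c (max c₁ c₂) with hc₃
  have h1 : c ≤ c₃ := le_max_left _ _
  have h2 : c₁ ≤ c₃ := (le_max_left _ _).trans (le_max_right _ _)
  have h3 : c₂ ≤ c₃ := (le_max_right _ _).trans (le_max_right _ _)
  have hmC : (m : ℂ) ≠ 0 := by exact_mod_cast hm.ne'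
  -- the quotient
  let H : Set ℂ := {s : ℂ | c₃ < s.re}
  have hHo : IsOpen H := isOpen_lt continuous_const Complex.continuous_re
  have hHc : IsPreconnected H := (convex_halfSpace_re_gt c₃).isPreconnected
  let ψ : ℂ → ℂ := fun s => LFun B s * Complex.exp (-(g s / m))
  have hψc : ContinuousOn ψ H := by
    refine ContinuousOn.mul ?_ ?_
    · exact (LFun_diff hu hu2 hev).continuousOn.mono fun s hs => h1.trans_lt hs
    · refine Complex.continuous_exp.comp_continuousOn ?_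
      exact (ContinuousOn.div_const (hg.continuousOn.mono fun s hs => hc₁ s (h2.trans_lt hs))
        (m : ℂ)).neg
  have hψm : ∀ s ∈ H, ψ s ^ m = 1 := by
    intro s hs
    change (LFun B s * Complex.exp (-(g s / m))) ^ m = 1
    rw [mul_pow, ← hc₂ s (h3.trans_lt hs), ← Complex.exp_nat_mul, mul_neg, mul_div_cancel₀ _ hmC,
      Complex.exp_neg, hg' s (hc₁ s (h2.trans_lt hs)),
      mul_inv_cancel₀ (hh0 s (hc₁ s (h2.trans_lt hs)))]
  obtain ⟨s₀, hs₀⟩ : ∃ s₀, s₀ ∈ H := ⟨((c₃ + 1 : ℝ) : ℂ), by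
    change c₃ < ((c₃ + 1 : ℝ) : ℂ).re
    rw [Complex.ofReal_re]
    linarith⟩
  have hfin : {z : ℂ | z ^ m = 1}.Finite := by
    have h4 : (Polynomial.X ^ m - 1 : ℂ[X]) ≠ 0 := by
      have := Polynomial.monic_X_pow_sub_C (1 : ℂ) hm.ne'
      rw [Polynomial.C_1] at this
      exact this.ne_zero
    refine ((Polynomial.X ^ m - 1 : ℂ[X]).roots.toFinset.finite_toSet).subset fun z hz => ?_
    have hz' : z ^ m = 1 := hz
    simp [Polynomial.mem_roots h4, Polynomial.IsRoot, hz']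
  have hconst : ∀ s ∈ H, ψ s = ψ s₀ := by
    intro s hs
    have h5 : (ψ '' H).Subsingleton := by
      have h6 : IsPreconnected (ψ '' H) := hHc.image ψ hψc
      have h7 : IsTotallyDisconnected {z : ℂ | z ^ m = 1} := hfin.countable.isTotallyDisconnected
      refine h7 _ ?_ h6
      rintro z ⟨s, hs, rfl⟩
      exact hψm s hs
    exact h5 (Set.mem_image_of_mem _ hs) (Set.mem_image_of_mem _ hs₀)
  have hne0 : ψ s₀ ≠ 0 := by
    intro h4
    have h5 := hψm s₀ hs₀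
    rw [h4, zero_pow hm.ne'] at h5
    exact zero_ne_one h5
  refine ⟨fun s => ψ s₀ * Complex.exp (g s / m), ?_, ?_, c₃, ?_⟩
  · exact ((hg.div_const (m : ℂ)).cexp).const_mul _
  · intro s _
    exact mul_ne_zero hne0 (Complex.exp_ne_zero _)
  · intro s hs
    change ψ s₀ * Complex.exp (g s / m) = _
    rw [← hconst s hs]
    change LFun B s * Complex.exp (-(g s / m)) * Complex.exp (g s / m) = _
    rw [mul_assoc, ← Complex.exp_add, neg_add_cancel, Complex.exp_zero, mul_one]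

/-- **The zero-free continuation in a relation.** -/
theorem zf_rel {Ω : Set ℂ} (hΩ : IsOpen Ω) (hsc : IsSimplyConnected Ω) {c₁ : ℝ}
    (hc₁ : ∀ s : ℂ, c₁ < s.re → s ∈ Ω) (hΩi : ∀ s ∈ Ω, (i : ℝ) / 2 < s.re)
    (hi : i ≤ 2 * d) {ι : Type} [Fintype ι] {Y : ι → Ext K}
    [∀ j, Algebra K₀ (Y j).F] [∀ j, IsScalarTower K₀ K (Y j).F] {n : ι → ℤ} {m : ℕ} (hm : 0 < m)
    (hrel : ∀ σ : GK K, ∑ j, n j * (fixn K (Y j).F σ : ℤ) = m)
    (h : ∀ j, ∀ B : HeightOneSpectrum (𝓞 (Y j).F) → ℂ[X], IsSys X d i N B → PF Ω B → ZF Ω B)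
    {B₀ : HeightOneSpectrum (𝓞 K) → ℂ[X]} (hB₀ : IsSys X d i N B₀) (hPF : PF Ω B₀) :
    ZF Ω B₀ := by
  choose B hB hBpf using fun j => exists_sys_up hB₀ (Y j).F
  have hPFj : ∀ j, PF Ω (B j) := fun j w s hs => hBpf j w s (hΩi s hs)
  obtain ⟨S, c, hS⟩ := sys_pow hrel hi hB₀ hB
  choose f hf hf0 e hf' using fun j => h j (B j) (hB j) (hPFj j)
  refine zf_root hΩ hsc hc₁ hB₀ hm (h := fun s => RF n m B₀ B S s * ∏ j, (f j s) ^ (n j))
    (c₂ := max c (∑ j, |e j|)) ?_ ?_ ?_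
  · intro s hs
    refine (DifferentiableAt.mul (RF_zf n m S hPF hPFj hs).1
      (DifferentiableAt.fun_finsetProd fun j _ => ?_)).differentiableWithinAt
    exact ((hf j).differentiableAt (hΩ.mem_nhds hs)).zpow (Or.inl (hf0 j s hs))
  · intro s hs
    exact mul_ne_zero (RF_zf n m S hPF hPFj hs).2
      (Finset.prod_ne_zero_iff.2 fun j _ => zpow_ne_zero _ (hf0 j s hs))
  · intro s hs
    have hsj : ∀ j, e j < s.re := by
      intro j
      refine ((le_abs_self _).trans ?_).trans_lt ((le_max_right _ _).trans_lt hs)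
      exact Finset.single_le_sum (f := fun j => |e j|) (fun _ _ => abs_nonneg _) (Finset.mem_univ j)
    have h1 := hS s ((le_max_left _ _).trans_lt hs)
    rw [zpow_natCast] at h1
    rw [h1]
    congr 1
    exact Finset.prod_congr rfl fun j _ => by rw [hf' j s (hsj j)]

end

end Pool.Agent.Q5.VL
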